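import Pool.Agent.SKQ.Stmts

/-!
# Basic lemmas
-/

set_option autoImplicit false

namespace Pool.Agent.SKQ

open Metric Set Filter Topology MeasureTheory
open scoped ENNReal
open Helper22QC

variable {n : ℕ}

/-! ### coordinates, cubes, annuli -/

theorem abs_coord_le (v : E n) (i : Fin n) : |v i| ≤ ‖v‖ := by
  have := PiLp.norm_apply_le v i
  rwa [Real.norm_eq_abs] at this

theorem norm_le_of_coord {v : E n} {t : ℝ} (ht : 0 ≤ t) (h : ∀ i, |v i| ≤ t) :
    ‖v‖ ≤ √n * t := by
  rw [EuclideanSpace.norm_eq]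
  apply Real.sqrt_le_iff.2
  refine ⟨by positivity, ?_⟩
  calc ∑ i, ‖v i‖ ^ 2 ≤ ∑ _i : Fin n, t ^ 2 := by
        refine Finset.sum_le_sum fun i _ => ?_
        rw [Real.norm_eq_abs]
        exact pow_le_pow_left₀ (abs_nonneg _) (h i) 2
    _ = n * t ^ 2 := by simp
    _ = (√n * t) ^ 2 := by
        rw [mul_pow, Real.sq_sqrt (Nat.cast_nonneg n)]

theorem coord_sub (x y : E n) (i : Fin n) : (x - y) i = x i - y i := rfl

theorem closedBall_subset_cube (c : E n) (t : ℝ) : closedBall c t ⊆ cube c t := by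
  intro y hy i
  rw [← coord_sub]
  exact (abs_coord_le _ i).trans (by rwa [mem_closedBall, dist_eq_norm] at hy)

theorem cube_subset_closedBall (c : E n) {t : ℝ} (ht : 0 ≤ t) :
    cube c t ⊆ closedBall c (√n * t) := by
  intro y hy
  rw [mem_closedBall, dist_eq_norm]
  exact norm_le_of_coord ht hy

theorem bcube_subset_cube (c : E n) (t : ℝ) : bcube c t ⊆ cube c t := fun _ hy => hy.1

theorem cube_mono (c : E n) {t t' : ℝ} (h : t ≤ t') : cube c t ⊆ cube c t' :=
  fun _ hy i => (hy i).trans h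

theorem isClosed_cube (c : E n) (t : ℝ) : IsClosed (cube c t) := by
  have : cube c t = ⋂ i, {y : E n | |y i - c i| ≤ t} := by
    ext y; simp [cube]
  rw [this]
  refine isClosed_iInter fun i => isClosed_le ?_ continuous_const
  fun_prop

theorem isCompact_cube (c : E n) (t : ℝ) : IsCompact (cube c t) := by
  rcases le_or_gt 0 t with ht | ht
  · exact (isCompact_closedBall c (√n * t)).of_isClosed_subset (isClosed_cube c t)
      (cube_subset_closedBall c ht)
  · rcases isEmpty_or_nonempty (Fin n) with h | ⟨⟨i⟩⟩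
    · have : Subsingleton (E n) := ⟨fun a b => by ext i; exact h.elim i⟩
      exact (Set.subsingleton_of_subsingleton).finite.isCompact
    · have : cube c t = ∅ := by
        ext y
        simp only [cube, mem_ofPred_eq, mem_empty_iff_false, iff_false]
        intro h
        have := (abs_nonneg _).trans (h i)
        linarith
      rw [this]
      exact isCompact_empty

theorem isCompact_bcube (c : E n) (t : ℝ) : IsCompact (bcube c t) := by
  refine (isCompact_cube c t).of_isClosed_subset ?_ (bcube_subset_cube c t)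
  have : bcube c t = cube c t ∩ ⋃ i, {y : E n | |y i - c i| = t} := by
    ext y; simp [cube, bcube]
  rw [this]
  refine (isClosed_cube c t).inter (isClosed_iUnion_of_finite fun i => isClosed_eq ?_ continuous_const)
  fun_prop

theorem measurableSet_cube (c : E n) (t : ℝ) : MeasurableSet (cube c t) :=
  (isClosed_cube c t).measurableSet

theorem isClosed_ann (c : E n) (a b : ℝ) : IsClosed (ann c a b) := by
  have : ann c a b = {y | a ≤ ‖y - c‖} ∩ {y | ‖y - c‖ ≤ b} := rfl
  rw [this]
  exact (isClosed_le continuous_const (by fun_prop)).inter (isClosed_le (by fun_prop) continuous_const)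

theorem ann_subset_closedBall (c : E n) (a b : ℝ) : ann c a b ⊆ closedBall c b := by
  intro y hy
  rw [mem_closedBall, dist_eq_norm]
  exact hy.2

theorem isCompact_ann (c : E n) (a b : ℝ) : IsCompact (ann c a b) :=
  (isCompact_closedBall c b).of_isClosed_subset (isClosed_ann c a b) (ann_subset_closedBall c a b)

theorem measurableSet_ann (c : E n) (a b : ℝ) : MeasurableSet (ann c a b) :=
  (isClosed_ann c a b).measurableSet

/-! ### the vector of a functional -/

theorem inner_gr (l : E n →L[ℝ] ℝ) (v : E n) : inner ℝ (gr l) v = l v := by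
  unfold gr
  rw [InnerProductSpace.toDual_symm_apply]

theorem inner_gr' (l : E n →L[ℝ] ℝ) (v : E n) : inner ℝ v (gr l) = l v := by
  rw [real_inner_comm, inner_gr]

theorem norm_gr (l : E n →L[ℝ] ℝ) : ‖gr l‖ = ‖l‖ := by
  unfold gr
  exact LinearIsometryEquiv.norm_map _ _

theorem gr_add (l l' : E n →L[ℝ] ℝ) : gr (l + l') = gr l + gr l' := by
  unfold gr; exact map_add _ _ _

theorem gr_sub (l l' : E n →L[ℝ] ℝ) : gr (l - l') = gr l - gr l' := by
  unfold gr; exact map_sub _ _ _

theorem gr_smul (a : ℝ) (l : E n →L[ℝ] ℝ) : gr (a • l) = a • gr l := by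
  unfold gr
  rw [map_smulₛₗ]
  rfl

theorem gr_zero : gr (0 : E n →L[ℝ] ℝ) = 0 := by unfold gr; exact map_zero _

theorem gr_eq {l : E n →L[ℝ] ℝ} {w : E n} (h : ∀ v, l v = inner ℝ w v) : gr l = w := by
  refine ext_inner_right ℝ fun v => ?_
  rw [inner_gr, h]

theorem inner_grc (Ψ : E n × E n → ℝ) (f : E n → E n) (F : E n → Mt n) (y v : E n) :
    inner ℝ (grc Ψ f F y) v = fderiv ℝ Ψ (y, f y) (v, F y v) := by
  unfold grc
  rw [inner_gr]
  rfl

theorem norm_grc_le (Ψ : E n × E n → ℝ) (f : E n → E n) (F : E n → Mt n) (y : E n) :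
    ‖grc Ψ f F y‖ ≤ ‖fderiv ℝ Ψ (y, f y)‖ * (1 + ‖F y‖) := by
  unfold grc
  rw [norm_gr]
  refine (ContinuousLinearMap.opNorm_comp_le _ _).trans ?_
  refine mul_le_mul_of_nonneg_left ?_ (norm_nonneg _)
  refine ContinuousLinearMap.opNorm_le_bound _ (by positivity) fun v => ?_
  show ‖(v, F y v)‖ ≤ _
  rw [Prod.norm_def]
  refine max_le ?_ ?_
  · nlinarith [norm_nonneg (F y), norm_nonneg v, mul_nonneg (norm_nonneg (F y)) (norm_nonneg v)]
  · have := (F y).le_opNorm v
    nlinarith [norm_nonneg v]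

/-! ### continuity, restriction -/

theorem ApV.continuousOn {C : Set (E n)} {f : E n → E n} {F : E n → Mt n} (h : ApV C f F) :
    ContinuousOn f C := by
  obtain ⟨f', h1, h2, _⟩ := h.ap
  exact h2.continuousOn (Frequently.of_forall fun k => (h1 k).continuous.continuousOn)

theorem ApS.continuousOn {C : Set (E n)} {w : E n → ℝ} {W : E n → E n} (h : ApS C w W) :
    ContinuousOn w C := by
  obtain ⟨f', h1, h2, _⟩ := h.ap
  exact h2.continuousOn (Frequently.of_forall fun k => (h1 k).continuous.continuousOn)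

theorem Sob.continuousOn {Ω : Set (E n)} (hΩ : IsOpen Ω) {f : E n → E n} {F : E n → Mt n}
    (h : Sob Ω f F) : ContinuousOn f Ω := by
  intro y hy
  obtain ⟨r, hr, hb⟩ := nhds_basis_closedBall.mem_iff.1 (hΩ.mem_nhds hy)
  have h1 := (h (closedBall y r) hb (isCompact_closedBall y r)).continuousOn
  exact (h1.continuousAt (closedBall_mem_nhds y hr)).continuousWithinAt

theorem integrableOn_sub_pow {C : Set (E n)} {V : Type*} [NormedAddCommGroup V]
    {F G : E n → V} (hFm : AEStronglyMeasurable F (volume.restrict C))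
    (hF : IntegrableOn (fun x => ‖F x‖ ^ n) C)
    (hGm : AEStronglyMeasurable G (volume.restrict C))
    (hG : IntegrableOn (fun x => ‖G x‖ ^ n) C) : IntegrableOn (fun x => ‖G x - F x‖ ^ n) C := by
  have h1 : IntegrableOn (fun x => 2 ^ n * (‖G x‖ ^ n + ‖F x‖ ^ n)) C := (hG.add hF).const_mul _
  refine Integrable.mono' h1 ((hGm.sub hFm).norm.pow n) (Eventually.of_forall fun x => ?_)
  rw [Real.norm_of_nonneg (by positivity)]
  have h2 : ‖G x - F x‖ ≤ 2 * max ‖G x‖ ‖F x‖ := by
    refine (norm_sub_le _ _).trans ?_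
    have := le_max_left ‖G x‖ ‖F x‖
    have := le_max_right ‖G x‖ ‖F x‖
    linarith
  calc ‖G x - F x‖ ^ n ≤ (2 * max ‖G x‖ ‖F x‖) ^ n := pow_le_pow_left₀ (norm_nonneg _) h2 n
    _ = 2 ^ n * max ‖G x‖ ‖F x‖ ^ n := mul_pow _ _ _
    _ ≤ 2 ^ n * (‖G x‖ ^ n + ‖F x‖ ^ n) := by
        refine mul_le_mul_of_nonneg_left ?_ (by positivity)
        rcases max_cases ‖G x‖ ‖F x‖ with ⟨h, _⟩ | ⟨h, _⟩ <;> rw [h] <;>
          nlinarith [pow_nonneg (norm_nonneg (G x)) n, pow_nonneg (norm_nonneg (F x)) n]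

theorem continuous_gr : Continuous (gr : (E n →L[ℝ] ℝ) → E n) :=
  (InnerProductSpace.toDual ℝ (E n)).symm.continuous

theorem continuous_grad {w : E n → ℝ} (h : ContDiff ℝ (⊤ : ℕ∞) w) :
    Continuous fun x => gr (fderiv ℝ w x) :=
  continuous_gr.comp (h.continuous_fderiv (by simp))

theorem ApS.mono {C C' : Set (E n)} {w : E n → ℝ} {W : E n → E n} (h : ApS C w W)
    (hC : IsCompact C) (hs : C' ⊆ C) : ApS C' w W := by
  obtain ⟨w', h1, h2, h3⟩ := h.ap
  refine ⟨h.meas.mono_measure (Measure.restrict_mono hs le_rfl), h.int.mono_set hs, w', h1,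
    h2.mono hs, ?_⟩
  refine squeeze_zero (fun k => integral_nonneg fun x => by positivity) (fun k => ?_) h3
  refine setIntegral_mono_set ?_ (Eventually.of_forall fun x => by positivity)
    hs.eventuallyLE
  have hc : Continuous fun x => gr (fderiv ℝ (w' k) x) := continuous_grad (h1 k)
  exact integrableOn_sub_pow h.meas h.int hc.aestronglyMeasurable
    ((hc.norm.pow n).continuousOn.integrableOn_compact hC)

theorem ApV.mono {C C' : Set (E n)} {f : E n → E n} {F : E n → Mt n} (h : ApV C f F)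
    (hC : IsCompact C) (hs : C' ⊆ C) : ApV C' f F := by
  obtain ⟨f', h1, h2, h3⟩ := h.ap
  refine ⟨h.meas.mono_measure (Measure.restrict_mono hs le_rfl), h.int.mono_set hs, f', h1,
    h2.mono hs, ?_⟩
  refine squeeze_zero (fun k => integral_nonneg fun x => by positivity) (fun k => ?_) h3
  refine setIntegral_mono_set ?_ (Eventually.of_forall fun x => by positivity)
    hs.eventuallyLE
  have hc : Continuous fun x => fderiv ℝ (f' k) x := (h1 k).continuous_fderiv (by simp)
  exact integrableOn_sub_pow h.meas h.int hc.aestronglyMeasurable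
    ((hc.norm.pow n).continuousOn.integrableOn_compact hC)

theorem Sob.mono {Ω Ω' : Set (E n)} {f : E n → E n} {F : E n → Mt n} (h : Sob Ω f F)
    (hs : Ω' ⊆ Ω) : Sob Ω' f F := fun C hC hC' => h C (hC.trans hs) hC'

/-! ### local maps -/

theorem Loc.mono {R K K' : ℝ} {f : E n → E n} {F : E n → Mt n} (h : Loc R K f F) (hK : 0 < K)
    (hK' : K ≤ K') : Loc R K' f F := by
  refine ⟨h.sob, h.cont, h.inj, h.op, ?_, h.vol⟩
  filter_upwards [h.qc] with y hy hyR
  have h1 := hy hyR
  have h2 : 0 ≤ K * (F y).det := (pow_nonneg (norm_nonneg _) n).trans h1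
  have h3 : 0 ≤ (F y).det := nonneg_of_mul_nonneg_right h2 hK
  exact h1.trans (mul_le_mul_of_nonneg_right hK' h3)

theorem Loc.det_nonneg {R K : ℝ} {f : E n → E n} {F : E n → Mt n} (h : Loc R K f F) (hK : 0 < K) :
    ∀ᵐ y, y ∈ ball (0 : E n) R → 0 ≤ (F y).det := by
  filter_upwards [h.qc] with y hy hyR
  have h2 : 0 ≤ K * (F y).det := (pow_nonneg (norm_nonneg _) n).trans (hy hyR)
  exact nonneg_of_mul_nonneg_right h2 hK

theorem Loc.isOpen_image {R K : ℝ} {f : E n → E n} {F : E n → Mt n} (h : Loc R K f F) :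
    IsOpen (f '' ball 0 R) := h.op _ subset_rfl isOpen_ball

theorem Loc.continuousOn_inv {R K : ℝ} {f : E n → E n} {F : E n → Mt n} (h : Loc R K f F) :
    ContinuousOn (Function.invFunOn f (ball 0 R)) (f '' ball 0 R) := by
  rw [_root_.continuousOn_iff']
  intro t ht
  refine ⟨f '' (t ∩ ball 0 R), h.op _ inter_subset_right (ht.inter isOpen_ball), ?_⟩
  ext z
  constructor
  · rintro ⟨h1, y, hy, rfl⟩
    have h2 : Function.invFunOn f (ball 0 R) (f y) = y := h.inj.leftInvOn_invFunOn hy
    refine ⟨⟨y, ⟨?_, hy⟩, rfl⟩, y, hy, rfl⟩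
    rw [mem_preimage, h2] at h1
    exact h1
  · rintro ⟨⟨y, ⟨hyt, hy⟩, rfl⟩, h1⟩
    refine ⟨?_, h1⟩
    rw [mem_preimage, h.inj.leftInvOn_invFunOn hy]
    exact hyt

theorem Loc.ne {R K : ℝ} {f : E n → E n} {F : E n → Mt n} (h : Loc R K f F) {y c : E n}
    (hy : y ∈ ball (0 : E n) R) (hc : c ∈ ball (0 : E n) R) (hne : y ≠ c) : f y - f c ≠ 0 :=
  sub_ne_zero.2 fun he => hne (h.inj hy hc he)

end Pool.Agent.SKQ
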