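import Pool.Agent.Helper22_QC.Defs

/-!
# Self maps of the ball with small local oscillation of the distortion tensor — definitions
-/

set_option autoImplicit false

namespace Pool.Agent.SKQ

open Metric Set Filter Topology MeasureTheory
open scoped ENNReal
open Helper22QC

/-- Linear maps. -/
abbrev Mt (n : ℕ) := E n →L[ℝ] E n

/-- The standard basis. -/
noncomputable abbrev bs (n : ℕ) : Module.Basis (Fin n) ℝ (E n) :=
  (EuclideanSpace.basisFun (Fin n) ℝ).toBasis

/-- The adjugate of a linear map. -/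
noncomputable def adjV {n : ℕ} (M : Mt n) : Mt n :=
  LinearMap.toContinuousLinearMap
    (Matrix.toLin (bs n) (bs n) (LinearMap.toMatrix (bs n) (bs n) (M : E n →ₗ[ℝ] E n)).adjugate)

/-- The divergence of a vector field. -/
noncomputable def dv {n : ℕ} (G : E n → E n) (z : E n) : ℝ :=
  ∑ i, (fderiv ℝ G z (EuclideanSpace.single i 1)) i

/-- The vector which represents a functional. -/
noncomputable def gr {n : ℕ} (l : E n →L[ℝ] ℝ) : E n := (InnerProductSpace.toDual ℝ (E n)).symm l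

/-- The closed cube with centre `c` and side `2 t`. -/
def cube {n : ℕ} (c : E n) (t : ℝ) : Set (E n) := {y | ∀ i, |y i - c i| ≤ t}

/-- The boundary of the cube. -/
def bcube {n : ℕ} (c : E n) (t : ℝ) : Set (E n) := {y | (∀ i, |y i - c i| ≤ t) ∧ ∃ i, |y i - c i| = t}

/-- The closed annulus. -/
def ann {n : ℕ} (c : E n) (a b : ℝ) : Set (E n) := {y | a ≤ ‖y - c‖ ∧ ‖y - c‖ ≤ b}

/-- On the compact set `C` the function `w` with gradient `W` is a limit of smooth functions:
uniformly, and in `L^n` for the gradients. -/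
structure ApS {n : ℕ} (C : Set (E n)) (w : E n → ℝ) (W : E n → E n) : Prop where
  meas : AEStronglyMeasurable W (volume.restrict C)
  int : IntegrableOn (fun x => ‖W x‖ ^ n) C
  ap : ∃ w' : ℕ → E n → ℝ, (∀ k, ContDiff ℝ (⊤ : ℕ∞) (w' k)) ∧ TendstoUniformlyOn w' w atTop C ∧
    Tendsto (fun k => ∫ x in C, ‖gr (fderiv ℝ (w' k) x) - W x‖ ^ n) atTop (𝓝 0)

/-- The same for maps. -/
structure ApV {n : ℕ} (C : Set (E n)) (f : E n → E n) (F : E n → Mt n) : Prop where
  meas : AEStronglyMeasurable F (volume.restrict C)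
  int : IntegrableOn (fun x => ‖F x‖ ^ n) C
  ap : ∃ f' : ℕ → E n → E n, (∀ k, ContDiff ℝ (⊤ : ℕ∞) (f' k)) ∧ TendstoUniformlyOn f' f atTop C ∧
    Tendsto (fun k => ∫ x in C, ‖fderiv ℝ (f' k) x - F x‖ ^ n) atTop (𝓝 0)

/-- `f` is continuous with derivative `F` locally in `L^n` on the open set `Ω`. -/
def Sob {n : ℕ} (Ω : Set (E n)) (f : E n → E n) (F : E n → Mt n) : Prop :=
  ∀ C ⊆ Ω, IsCompact C → ApV C f F

/-- The gradient of `y ↦ Ψ (y, f y)`, where `f` has the derivative `F`. -/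
noncomputable def grc {n : ℕ} (Ψ : E n × E n → ℝ) (f : E n → E n) (F : E n → Mt n) (y : E n) : E n :=
  gr ((fderiv ℝ Ψ (y, f y)).comp ((ContinuousLinearMap.id ℝ (E n)).prod (F y)))

/-- Smooth cut-off: `0` near `0` and `1` for `|z| ≥ μ`. -/
noncomputable def th {n : ℕ} (μ : ℝ) (z : E n) : ℝ := Real.smoothTransition (2 * ‖z‖ ^ 2 / μ ^ 2 - 1)

/-- A smooth function equal to `log |z|` for `|z| ≥ μ`. -/
noncomputable def lg {n : ℕ} (μ : ℝ) (z : E n) : ℝ := th μ z * Real.log ‖z‖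

/-- A smooth vector field equal to `z / |z|^n` for `|z| ≥ μ`. -/
noncomputable def gs {n : ℕ} (μ : ℝ) (z : E n) : E n := (th μ z * (‖z‖ ^ n)⁻¹) • z

/-- `log (|f y - f c| / |y - c|)` -/
noncomputable def wf {n : ℕ} (f : E n → E n) (c y : E n) : ℝ :=
  Real.log ‖f y - f c‖ - Real.log ‖y - c‖

/-- its gradient -/
noncomputable def Wf {n : ℕ} (f : E n → E n) (F : E n → Mt n) (c y : E n) : E n :=
  (‖f y - f c‖ ^ 2)⁻¹ • (ContinuousLinearMap.adjoint (F y)) (f y - f c) -
    (‖y - c‖ ^ 2)⁻¹ • (y - c)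

/-- the difference of the two divergence free fields -/
noncomputable def Gf {n : ℕ} (f : E n → E n) (F : E n → Mt n) (c y : E n) : E n :=
  adjV (F y) ((‖f y - f c‖ ^ n)⁻¹ • (f y - f c)) - (‖y - c‖ ^ n)⁻¹ • (y - c)

/-- `F` is locally in `L^n` on the open unit ball and `f` is a homeomorphism of the open unit ball
onto itself with derivative `F` and `‖F‖^n ≤ K det F`. -/
structure Glo {n : ℕ} (K : ℝ) (f : E n → E n) (F : E n → Mt n) : Prop where
  sob : Sob (ball 0 1) f F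
  bij : BijOn f (ball 0 1) (ball 0 1)
  inv : ContinuousOn (Function.invFunOn f (ball 0 1)) (ball 0 1)
  qc : ∀ᵐ y, y ∈ ball (0 : E n) 1 → ‖F y‖ ^ n ≤ K * (F y).det

/-- Local maps: `f` is an open embedding of the ball `|y| < R`, with derivative `F`,
`‖F‖^n ≤ K det F`, and the change of variables formula holds. -/
structure Loc {n : ℕ} (R K : ℝ) (f : E n → E n) (F : E n → Mt n) : Prop where
  sob : Sob (ball 0 R) f F
  cont : ContinuousOn f (ball 0 R)
  inj : InjOn f (ball 0 R)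
  op : ∀ U ⊆ ball (0 : E n) R, IsOpen U → IsOpen (f '' U)
  qc : ∀ᵐ y, y ∈ ball (0 : E n) R → ‖F y‖ ^ n ≤ K * (F y).det
  vol : ∀ g : E n → ℝ≥0∞, Measurable g →
    ∫⁻ x in ball 0 R, g (f x) * ENNReal.ofReal (F x).det = ∫⁻ z in f '' ball 0 R, g z

/-- A homeomorphism of the closed ball as a map of the whole space. -/
noncomputable def exf {n : ℕ} (f : HB n) (x : E n) : E n := by
  classical
  exact if h : x ∈ closedBall (0 : E n) 1 then (f ⟨x, h⟩ : E n) else 0

/-- `F` is the weak derivative of `f` on the open unit ball, and `‖F‖^n` is locally integrable. -/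
structure WDer {n : ℕ} (f : HB n) (F : E n → Mt n) : Prop where
  meas : AEStronglyMeasurable F (volume.restrict (ball (0 : E n) 1))
  int : ∀ r < 1, IntegrableOn (fun x => ‖F x‖ ^ n) (closedBall (0 : E n) r)
  weak : ∀ φ : E n → ℝ, ContDiff ℝ (⊤ : ℕ∞) φ → HasCompactSupport φ → tsupport φ ⊆ ball 0 1 →
    ∀ v : E n, ∫ x in ball (0 : E n) 1, fderiv ℝ φ x v • exf f x =
      - ∫ x in ball (0 : E n) 1, φ x • F x v

/-- At some hyperbolic scale the distortion tensor of `f` has small oscillation: around each point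
`x` of the open unit ball there is a linear map `A` with `|v| ≤ |A v| ≤ H |v|`, `det A > 0`, such
that `‖F y ∘ A‖^n ≤ (1 + ε) det (F y ∘ A)` for almost all `y` with `|y - x| < t (1 - |x|)`.
(`A = 1`: `f` is `(1 + ε)`-quasiconformal.) -/
def SmallOsc {n : ℕ} (ε H : ℝ) (f : HB n) : Prop :=
  KeepsSphere f ∧ ∃ F : E n → Mt n, WDer f F ∧ ∃ t : ℝ, 0 < t ∧ t ≤ 1 ∧
    ∀ x : E n, ‖x‖ < 1 → ∃ A : Mt n, LinDist H 1 A ∧
      ∀ᵐ y, y ∈ ball x (t * (1 - ‖x‖)) → ‖(F y).comp A‖ ^ n ≤ (1 + ε) * ((F y).comp A).det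

end Pool.Agent.SKQ
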