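import Pool.Agent.SKQ.Defs

/-!
# MP_183729_an: maps with small oscillation of the distortion tensor — statements of the rows

THEOREM (FIN): Q2 holds for every map in the group generated by the monotone, the nearly affine and
the `SmallOsc` homeomorphisms of the closed ball (in particular all `(1 + ε)`-quasiconformal ones,
and all quasiconformal ones with hyperbolically uniformly continuous distortion tensor).
New point: a short quantitative Liouville theorem (CLW). For an embedding `f` of a big ball with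
`‖F‖^n ≤ (1 + ε) det F` let `w = log (|f y - f c| / |y - c|)`. The fields
`adj F (f y - f c) / |f y - f c|^n` and `(y - c) / |y - c|^n` are divergence free off `c` with the SAME
flux, so the `n`-energy of `w` in a long annulus is bounded by boundary terms; pigeonhole gives
boundary annuli where `w` is almost constant, and then the energy in between is almost `0`, so `w` is
almost constant: `f` almost preserves spheres around every `c`, hence is almost a similarity.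

All rows are independent: the statements in the list `uses` are hypotheses. The proof of each row is
its docstring. `C`, `H` denote constants depending on `n` only.
-/

set_option autoImplicit false

namespace Pool.Agent.SKQ

open Metric Set Filter Topology MeasureTheory
open scoped ENNReal
open Helper22QC

/-! ## A. Algebra, null Lagrangians -/

/-- ADJ. `adjugate`: `adjugate_mul`, `mul_adjugate`; the entries are polynomials (determinants of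
submatrices) homogeneous of degree `n - 1`; multilinearity of `det` in the rows, `|entry| ≤ ‖M‖`,
`‖M‖ ≤ C max |entry|`; telescoping for the differences. Last part: Hadamard, or
`volume (M (ball 0 1)) ≤ volume (ball 0 ‖M‖)` (`Measure.addHaar_image_continuousLinearMap`). The
formula for `det` of a row replacement is `Matrix.cramer` / `Matrix.adjugate_apply`. -/
def ADJStmt : Prop := ∀ n : ℕ, 1 ≤ n → ∃ C : ℝ, 0 < C ∧
  (∀ (M : Mt n) (v : E n), M (adjV M v) = M.det • v ∧ adjV M (M v) = M.det • v) ∧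
  Continuous (fun M : Mt n => adjV M) ∧ Continuous (fun M : Mt n => M.det) ∧
  (∀ M : Mt n, ‖adjV M‖ ≤ C * ‖M‖ ^ (n - 1)) ∧ (∀ M : Mt n, |M.det| ≤ ‖M‖ ^ n) ∧
  ∀ M M' : Mt n, |M.det - M'.det| ≤ C * (‖M‖ + ‖M'‖) ^ (n - 1) * ‖M - M'‖

/-- ALG (uses ADJ). Put `s = ‖M‖ / |z|`, `ξ = |z|^-2 M† z`, `|ξ| ≤ s`. (1)
`⟪|ξ|^(n-2) ξ - |ζ|^(n-2) ζ, ξ - ζ⟫ = (1/2)(|ξ|^(n-2) + |ζ|^(n-2)) |ξ - ζ|² +
(1/2)(|ξ|^(n-2) - |ζ|^(n-2))(|ξ|² - |ζ|²) ≥ (1/2)(|ξ|^(n-2) + |ζ|^(n-2)) |ξ - ζ|² ≥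
2^(-n) |ξ - ζ|^n`. (2) `|adj M (|z|^-n z) - |ξ|^(n-2) ξ| ≤ η' s^(n-1)` if `ε` is small: by homogeneity
`‖M‖ = |z| = 1`, `det M ≥ 1/(1 + ε)`. Then `M` is invertible, `adj M z = det M • M⁻¹ z`, and the
smallest singular value is at least `det M ≥ 1/(1+ε)` (`|det M| |v| = |adj M (M v)| ≤ |M v|` because
`‖adj M‖ ≤ 1` if `‖M‖ ≤ 1`; or by compactness: a limit of such `M` with `ε → 0` has `‖M‖ ≤ 1`,
`det M ≥ 1`, hence is orthogonal, and for it both vectors are equal; the difference is a continuous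
function on the compact set `‖M‖ = 1 = |z|`, so it is small for small `ε`). (3) Sum:
`⟪adj M (|z|^-n z) - |ζ|^(n-2) ζ, ξ - ζ⟫ ≥ 2^(-n) |ξ - ζ|^n - η' s^(n-1) (s + |ζ|)` and
`s^(n-1) (s + |ζ|) ≤ 2 (s^n + |ζ|^n)`. -/
def ALGStmt : Prop := ∀ n : ℕ, 2 ≤ n → ∃ c₀ : ℝ, 0 < c₀ ∧ ∀ η : ℝ, 0 < η → ∃ ε : ℝ, 0 < ε ∧ ε ≤ 1 ∧
  ∀ (M : Mt n) (z ζ : E n), ‖M‖ ^ n ≤ (1 + ε) * M.det → z ≠ 0 →
    c₀ * ‖(‖z‖ ^ 2)⁻¹ • (ContinuousLinearMap.adjoint M) z - ζ‖ ^ n ≤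
      inner ℝ (adjV M ((‖z‖ ^ n)⁻¹ • z) - ‖ζ‖ ^ (n - 2) • ζ)
        ((‖z‖ ^ 2)⁻¹ • (ContinuousLinearMap.adjoint M) z - ζ) +
      η * ((‖M‖ / ‖z‖) ^ n + ‖ζ‖ ^ n)

/-- NL0. Let `g` be supported in the closed ball `B`. For small `|t|` the map `id + t g` is a bijection
of the space (perturbation of the identity by a map with small Lipschitz constant), is the identity
off `B`, so maps `B` onto `B`, and has positive determinant: `∫_B det (1 + t Dg) = volume B` for small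
`|t|` (`integral_image_eq_integral_abs_det_fderiv_smul`). The left side is a polynomial in `t` of
degree `≤ n` with coefficient `∫ det Dg` of `t^n`, `n ≥ 1`. -/
def NL0Stmt : Prop := ∀ (n : ℕ) (g : E n → E n), 1 ≤ n → ContDiff ℝ (⊤ : ℕ∞) g → HasCompactSupport g →
  ∫ x, (fderiv ℝ g x).det = 0

/-- NLF (uses NL0, ADJ). For `i` let `ψ` be a smooth cut-off equal to `1` near `tsupport φ` and `g` the
map with components `ψ f_j` (`j ≠ i`) and `φ G_i(f)` (`j = i`). Then `det Dg` is the determinant of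
the matrix of `Df` with row `i` replaced by `∇(φ G_i(f)) = G_i(f) ∇φ + φ Df† (∇G_i)(f)` (off
`tsupport φ` both are `0`), i.e. the `i`-th summand of `⟪adj Df (G f), ∇φ⟫` plus
`φ det Df (∂_i G_i)(f)` (Cramer). Sum over `i` and NL0. -/
def NLFStmt : Prop := ∀ (n : ℕ) (f G : E n → E n) (φ : E n → ℝ), 1 ≤ n → ContDiff ℝ (⊤ : ℕ∞) f →
  ContDiff ℝ (⊤ : ℕ∞) G → ContDiff ℝ (⊤ : ℕ∞) φ → HasCompactSupport φ →
  ∫ y, inner ℝ (adjV (fderiv ℝ f y) (G (f y))) (gr (fderiv ℝ φ y)) =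
    - ∫ y, φ y * dv G (f y) * (fderiv ℝ f y).det

/-! ## B. Limits -/

/-- LIM. Every subsequence has a further subsequence along which `∑ ∫_C ‖Df_k - F‖^n < ∞`, so
`h = ∑ ‖Df_k - F‖^n` is integrable on `C`, `Df_k → F` a.e. on `C` and
`‖Df_k‖^n ≤ 2^n (‖F‖^n + h)`. The maps `f_k` are uniformly bounded on `C` (eventually; `f` is bounded on
`C` as a uniform limit of continuous functions on a compact set). Dominated convergence with
`|P| ≤ B (1 + ‖M‖^n)`; `P` is continuous. (`tendsto_of_subseq_tendsto`) -/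
def LIMStmt : Prop := ∀ (n : ℕ) (C : Set (E n)) (f : E n → E n) (F : E n → Mt n)
  (f' : ℕ → E n → E n) (P : E n × E n × Mt n → ℝ), 1 ≤ n → IsCompact C →
  AEStronglyMeasurable F (volume.restrict C) → IntegrableOn (fun x => ‖F x‖ ^ n) C →
  (∀ k, ContDiff ℝ (⊤ : ℕ∞) (f' k)) → TendstoUniformlyOn f' f atTop C →
  Tendsto (fun k => ∫ x in C, ‖fderiv ℝ (f' k) x - F x‖ ^ n) atTop (𝓝 0) → Continuous P →
  (∀ r : ℝ, ∃ B : ℝ, ∀ y ∈ C, ∀ z : E n, ‖z‖ ≤ r → ∀ M : Mt n, |P (y, z, M)| ≤ B * (1 + ‖M‖ ^ n)) →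
  IntegrableOn (fun y => P (y, f y, F y)) C ∧
  Tendsto (fun k => ∫ y in C, P (y, f' k y, fderiv ℝ (f' k) y)) atTop
    (𝓝 (∫ y in C, P (y, f y, F y)))

/-- CHR (composition). `w_k y = Ψ (y, f_k y)` is smooth with gradient `grc Ψ f_k Df_k y`. Uniform
convergence: `Ψ` is uniformly continuous on compact sets. `∫_C |grc Ψ f_k Df_k - grc Ψ f F|^n → 0`:
as in LIM (subsequences, dominated convergence with `B (1 + ‖F‖^n + h)`). -/
def CHRStmt : Prop := ∀ (n : ℕ) (C : Set (E n)) (f : E n → E n) (F : E n → Mt n)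
  (Ψ : E n × E n → ℝ), 1 ≤ n → IsCompact C → ApV C f F → ContDiff ℝ (⊤ : ℕ∞) Ψ →
  ApS C (fun y => Ψ (y, f y)) (grc Ψ f F)

/-- NLG (uses NLF, LIM, ADJ). NLF for `f_k` and `φ y = Φ (y, f_k y)` (smooth, supported in `S`), whose
gradient is `grc Φ f_k Df_k`; on `C = S` let `k → ∞` with LIM:
`P (y, z, M) = ⟪adj M (G z), gr (DΦ(y,z) ∘ (1, M))⟫` and `Φ (y, z) dv G z det M` are continuous and
bounded by `B (1 + ‖M‖^n)`. The integrands vanish off `S`. -/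
def NLGStmt : Prop := ∀ (n : ℕ) (Ω S : Set (E n)) (f G : E n → E n) (F : E n → Mt n)
  (Φ : E n × E n → ℝ), 1 ≤ n → IsOpen Ω → Sob Ω f F → IsCompact S → S ⊆ Ω →
  ContDiff ℝ (⊤ : ℕ∞) G → ContDiff ℝ (⊤ : ℕ∞) Φ → (∀ y, y ∉ S → ∀ z, Φ (y, z) = 0) →
  IntegrableOn (fun y => inner ℝ (adjV (F y) (G (f y))) (grc Φ f F y)) Ω ∧
  IntegrableOn (fun y => Φ (y, f y) * dv G (f y) * (F y).det) Ω ∧
  ∫ y in Ω, inner ℝ (adjV (F y) (G (f y))) (grc Φ f F y) =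
    - ∫ y in Ω, Φ (y, f y) * dv G (f y) * (F y).det

/-- IBP (uses LIM). For smooth `f_k`: the divergence of the compactly supported field `φ A`,
`φ y = Φ (y, f_k y)`, has integral `0`. Limit by LIM. (Or NLF with `id` for `f`.) -/
def IBPStmt : Prop := ∀ (n : ℕ) (Ω S : Set (E n)) (f A : E n → E n) (F : E n → Mt n)
  (Φ : E n × E n → ℝ), 1 ≤ n → IsOpen Ω → Sob Ω f F → IsCompact S → S ⊆ Ω →
  ContDiff ℝ (⊤ : ℕ∞) A → ContDiff ℝ (⊤ : ℕ∞) Φ → (∀ y, y ∉ S → ∀ z, Φ (y, z) = 0) →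
  IntegrableOn (fun y => inner ℝ (A y) (grc Φ f F y)) Ω ∧
  ∫ y in Ω, inner ℝ (A y) (grc Φ f F y) = - ∫ y in Ω, Φ (y, f y) * dv A y

/-- NLD (uses NLF, ADJ, LIM). For smooth `f` put `h y = f y - a - L y`, `f_τ = a + L + τ h`. Since
`d/dτ det (L + τ M) = trace (adj (L + τ M) M)`, `det Df - det L = ∫_0^1 ∑_i ⟪adj (Df_τ) e_i, ∇h_i⟫ dτ`, and by
NLF (`G = e_i` constant, test function `φ h_i`) `∫ φ ⟪adj (Df_τ) e_i, ∇h_i⟫ = - ∫ h_i ⟪adj (Df_τ) e_i, ∇φ⟫`.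
So `|∫ φ (det Df - det L)| ≤ C sup_S |h| sup |∇φ| ∫_S (‖Df‖ + ‖L‖)^(n-1)`. Then LIM. (Alternatively
telescope `det Df - det L` row by row.) -/
def NLDStmt : Prop := ∀ n : ℕ, 1 ≤ n → ∃ C : ℝ, 0 < C ∧ ∀ (Ω S : Set (E n)) (f : E n → E n)
  (F : E n → Mt n) (φ : E n → ℝ) (L : Mt n) (a : E n) (δ D : ℝ), IsOpen Ω → Sob Ω f F → IsCompact S →
  S ⊆ Ω → ContDiff ℝ (⊤ : ℕ∞) φ → tsupport φ ⊆ S → (∀ y, ‖fderiv ℝ φ y‖ ≤ D) →
  (∀ y ∈ S, ‖f y - a - L y‖ ≤ δ) →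
  |∫ y in S, φ y * ((F y).det - L.det)| ≤ C * δ * D * ∫ y in S, (‖F y‖ + ‖L‖) ^ (n - 1)

/-- SMO. `th μ` is smooth, `0` for `|z|² ≤ μ²/2`, `1` for `|z| ≥ μ`. `lg μ`, `gs μ` are smooth (near `0`
they vanish). For `|z| > μ` they agree near `z` with `log |z|`, `z/|z|^n`; at `|z| = μ` the formulas for
the derivatives follow by continuity. `dv (z/|z|^n) = n/|z|^n - n |z|²/|z|^(n+2) = 0`. `dv (gs μ)` has
compact support. -/
def SMOStmt : Prop := ∀ (n : ℕ) (μ : ℝ), 1 ≤ n → 0 < μ →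
  ContDiff ℝ (⊤ : ℕ∞) (lg μ : E n → ℝ) ∧ ContDiff ℝ (⊤ : ℕ∞) (gs μ : E n → E n) ∧
  ∀ z : E n, μ ≤ ‖z‖ → lg μ z = Real.log ‖z‖ ∧ gs μ z = (‖z‖ ^ n)⁻¹ • z ∧
    gr (fderiv ℝ (lg μ : E n → ℝ) z) = (‖z‖ ^ 2)⁻¹ • z ∧ dv (gs μ) z = 0

/-- MOL. `exf f` is continuous on the closed ball. Let `C ⊂ ball 0 1` be compact, `χ` a smooth cut-off
equal to `1` on a neighbourhood of `C` and supported in the ball, `g = χ • exf f` (continuous, compact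
support), `f_k` = convolution of `g` with a bump of radius `1/(k+1)`: smooth, uniformly convergent to
`g`, and for large `k` on `C` the derivative of `f_k` is the convolution of `F` (differentiate the bump
and use `weak` with `φ` = translated bump; `φ` is supported in the ball and `χ = 1` there). Mollifications
of `1_{C'} F ∈ L^n` (`C'` a compact neighbourhood of `C`) converge in `L^n`: density of continuous
functions and `∫ |g * ρ|^n ≤ ∫ |g|^n` (Jensen). -/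
def MOLStmt : Prop := ∀ (n : ℕ) (f : HB n) (F : E n → Mt n), 1 ≤ n → WDer f F →
  Sob (ball 0 1) (exf f) F

/-- LEB. For each `q` in a countable dense set of linear maps the function `‖F - q‖^n` is locally
integrable on `Ω`, so a.e. point is a Lebesgue point of it (`VitaliFamily` / `IsUnifLocDoublingMeasure`,
averages over closed balls); `cube y r ⊆ closedBall y (√n r)`, comparable volumes. At such a point `y`:
average of `‖F - F y‖^n ≤ 2^n (average of ‖F - q‖^n + ‖q - F y‖^n)`, `q` near `F y`. -/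
def LEBStmt : Prop := ∀ (n : ℕ) (Ω : Set (E n)) (F : E n → Mt n), 1 ≤ n → IsOpen Ω →
  (∀ C ⊆ Ω, IsCompact C → AEStronglyMeasurable F (volume.restrict C) ∧
    IntegrableOn (fun x => ‖F x‖ ^ n) C) →
  ∀ᵐ y, y ∈ Ω → Tendsto (fun r : ℝ => (r ^ n)⁻¹ * ∫ x in cube y r, ‖F x - F y‖ ^ n) (𝓝[>] 0) (𝓝 0)

/-! ## C. Oscillation on boundaries of cubes -/

/-- FMO (Morrey's inequality with exponent `m + 1` in dimension `m`; sup norm). Let `Q` be the closed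
cube, `v = (2t)^m` its volume, `g = ‖Dψ‖`. For `x ∈ Q`: `|ψ x - avg ψ| ≤ v⁻¹ ∫_Q |ψ z - ψ x| dz ≤
v⁻¹ ∫_Q ∫_0^1 g (x + s (z - x)) 2t ds dz = (2t/v) ∫_0^1 s^(-m) ∫_{x + s(Q - x)} g ds ≤
(2t/v) ∫_0^1 s^(-m) (s^m v)^(m/(m+1)) ‖g‖_{L^(m+1)(Q)} ds = (m + 1) 2t v^(-1/(m+1)) ‖g‖` (Hölder;
`x + s (Q - x) ⊆ Q` has volume `s^m v`), and `(2t)^(m+1) / v = 2t`. -/
def FMOStmt : Prop := ∀ m : ℕ, 1 ≤ m → ∃ C : ℝ, 0 < C ∧ ∀ (ψ : (Fin m → ℝ) → ℝ) (c : Fin m → ℝ) (t : ℝ),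
  ContDiff ℝ 1 ψ → 0 < t → ∀ x ∈ closedBall c t, ∀ y ∈ closedBall c t,
    |ψ x - ψ y| ^ (m + 1) ≤ C * t * ∫ z in closedBall c t, ‖fderiv ℝ ψ z‖ ^ (m + 1)

/-- OSS (uses FMO). `n = m + 1`. For a face `x_i = c_i ± t` of the boundary of the cube (a cube of
dimension `m`; `MeasurableEquiv.piFinSuccAbove`, `volume_preserving_piFinSuccAbove`, and
`EuclideanSpace.volume_preserving_...`) let `S_{i,±}(t)` be the integral of `∑_j |∇w_j|^n` over the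
face. Fubini: `∫_a^{2a} S_{i,±}(t) dt ≤ ∫_{cube c (2a)} ∑_j |∇w_j|^n =: I`. So there is
`t ∈ [a, 2a]` with `a ∑_{i,±} S_{i,±}(t) ≤ 2 n I`. By FMO each `w_j` oscillates on each face by at most
`(C t S)^(1/n)`; any two points of the boundary are joined by at most three faces, consecutive ones
meeting. -/
def OSSStmt : Prop := ∀ n : ℕ, 2 ≤ n → ∃ C : ℝ, 0 < C ∧ ∀ (k : ℕ) (w : Fin k → E n → ℝ) (c : E n) (a : ℝ),
  0 < a → (∀ j, ContDiff ℝ (⊤ : ℕ∞) (w j)) → ∃ t : ℝ, a ≤ t ∧ t ≤ 2 * a ∧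
    ∀ j, ∀ x ∈ bcube c t, ∀ y ∈ bcube c t, |w j x - w j y| ^ n ≤
      C * ∫ z in cube c (2 * a), ∑ j, ‖gr (fderiv ℝ (w j) z)‖ ^ n

/-- OSC (uses OSS). OSS for the approximations `w_j^k`, `k → ∞`: `t_k → t` along a subsequence; points
`x, y ∈ bcube c t` are limits of points of `bcube c t_k` (scale around `c`), and `w_j^k → w_j`
uniformly on the cube, `w_j` is continuous there; the integrals converge
(`∫ |∇w^k|^n → ∫ |W|^n` because `∫ |∇w^k - W|^n → 0`). -/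
def OSCStmt : Prop := ∀ n : ℕ, 2 ≤ n → ∃ C : ℝ, 0 < C ∧ ∀ (k : ℕ) (w : Fin k → E n → ℝ)
  (W : Fin k → E n → E n) (c : E n) (a : ℝ), 0 < a → (∀ j, ApS (cube c (2 * a)) (w j) (W j)) →
  ∃ t : ℝ, a ≤ t ∧ t ≤ 2 * a ∧ ∀ j, ∀ x ∈ bcube c t, ∀ y ∈ bcube c t,
    |w j x - w j y| ^ n ≤ C * ∫ z in cube c (2 * a), ∑ j, ‖W j z‖ ^ n

/-- PCR (Poincaré with boundary values). For smooth `w` and `x` in the cube integrate along the line in the
first direction from the boundary point: `|w x - b| ≤ σ + ∫ |∇w|` along the line; integrate over `x`.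
Then the limit `k → ∞`. -/
def PCRStmt : Prop := ∀ n : ℕ, 1 ≤ n → ∃ C : ℝ, 0 < C ∧ ∀ (w : E n → ℝ) (W : E n → E n) (c : E n)
  (t b σ : ℝ), 0 < t → ApS (cube c t) w W → (∀ x ∈ bcube c t, |w x - b| ≤ σ) →
  ∫ x in cube c t, |w x - b| ≤ C * (t ^ n * σ + t * ∫ x in cube c t, ‖W x‖)

/-- INT. Let `δ = max_i |p_i - p'_i| > 0`. On the boundary of the first cube, a sphere of the sup norm,
connected for `n ≥ 2` (`isPreconnected_sphere` in `Fin n → ℝ`), the function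
`z ↦ max_i |z_i - p'_i|` takes the values `|δ - t| ≤ t'` (at `p + (t/δ)(p' - p)`) and `δ + t ≥ t'`
(at `p - (t/δ)(p' - p)`). -/
def INTStmt : Prop := ∀ (n : ℕ) (p p' : E n) (t t' δ : ℝ), 2 ≤ n → 0 < t → 0 < t' → 0 < δ →
  (∀ i, |p' i - p i| ≤ δ) → (∃ i, |p' i - p i| = δ) → t ≤ t' + δ → t' ≤ t + δ → δ ≤ t + t' →
  (bcube p t ∩ bcube p' t').Nonempty

/-- GEO (chains in an annulus). For `n ≥ 2` points `p, p'` with `a ≤ |p - c|, |p' - c| ≤ b` can be joined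
by a chain of at most `N` steps, `N` depending on `n`, `b / a`, `a / h`, each of sup-norm length in
`[h, 2h]`, inside the annulus `(3/4) a ≤ |y - c| ≤ (5/4) b`, if `8 √n h ≤ a`. PROOF. Join `p` to `p'` by
a path in the annulus `a ≤ |y - c| ≤ b` of length at most `b + 4 b` (radially to the sphere `|y - c| = b`,
then along a great circle); choose successive points at sup-norm distance exactly `h` (steps of Euclidean
length at least `h`, so at most `1 + 5 b √n / h`); when the rest is within sup-norm distance `h` of `p'`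
go to `p'` through an intermediate point at sup-norm distance in `[h, 2 h]` from both. Any other
construction with a bound for `N` will do. -/
def GEOStmt : Prop := ∀ (n : ℕ) (l₁ l₂ : ℝ), 2 ≤ n → 1 ≤ l₁ → 1 ≤ l₂ → ∃ N : ℕ, ∀ (c : E n) (a b h : ℝ),
  0 < h → 8 * √n * h ≤ a → a ≤ b → b ≤ l₁ * a → a ≤ l₂ * h → ∀ p ∈ ann c a b, ∀ p' ∈ ann c a b,
  ∃ q : ℕ → E n, q 0 = p ∧ q N = p' ∧ ∀ k < N, q k ∈ ann c (3 / 4 * a) (5 / 4 * b) ∧
    (q (k + 1) = q k ∨ ∃ δ : ℝ, h ≤ δ ∧ δ ≤ 2 * h ∧ (∀ i, |q (k + 1) i - q k i| ≤ δ) ∧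
      ∃ i, |q (k + 1) i - q k i| = δ)

/-- THT (cut-off in the image). `Θ z = smoothTransition ((log |z| - log l) / (log L - log l))`; it
vanishes for `|z| ≤ l`, so it is smooth; its gradient is bounded by
`sup |smoothTransition'| / ((log L - log l) |z|)` and vanishes off `l ≤ |z| ≤ L`. -/
def THTStmt : Prop := ∃ C : ℝ, 0 < C ∧ ∀ (n : ℕ) (l L : ℝ), 0 < l → l < L →
  ∃ Θ : E n → ℝ, ContDiff ℝ (⊤ : ℕ∞) Θ ∧ (∀ z, ‖z‖ ≤ l → Θ z = 0) ∧ (∀ z, L ≤ ‖z‖ → Θ z = 1) ∧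
    ∀ z, (‖z‖ < l ∨ L < ‖z‖ → fderiv ℝ Θ z = 0) ∧
      ‖z‖ * ‖fderiv ℝ Θ z‖ ≤ C / (Real.log L - Real.log l)

/-- CUT. `χ y = b ((y - c)/s)`, `b` a fixed smooth bump: `1` for `|y| ≤ 1`, `0` for `|y| ≥ 3/2`. -/
def CUTStmt : Prop := ∀ n : ℕ, ∃ C : ℝ, 0 < C ∧ ∀ (c : E n) (s : ℝ), 0 < s → ∃ χ : E n → ℝ,
  ContDiff ℝ (⊤ : ℕ∞) χ ∧ (∀ y, 0 ≤ χ y ∧ χ y ≤ 1) ∧ (∀ y, ‖y - c‖ ≤ s → χ y = 1) ∧
  tsupport χ ⊆ closedBall c (3 / 2 * s) ∧ ∀ y, ‖fderiv ℝ χ y‖ ≤ C / s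

/-! ## D. Degree -/

/-- DG1 (uses NLG). Let `Λ h = ∫_{ball} h(f) det F`. (1) For smooth `h` with compact support in the ball and
`a ∈ ℝ^n`: NLG with `G = h • a` and `Φ (y, z) = φ y`, `φ` a smooth cut-off equal to `1` near the
compact set `f⁻¹ (tsupport h)`, gives `Λ ⟪∇h, a⟫ = 0` (`∇φ = 0` where `h(f) ≠ 0`). (2) Let `ψ ≥ 0` be a
smooth bump with integral `1` in the ball of radius `δ`. `D_δ(z) = Λ (ψ (· - z))` is differentiable with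
derivative `0` for `|z| < 1 - δ`, so equals a constant `d_δ` there. For continuous `h` supported in
`|z| ≤ r < 1 - δ`: `Λ (h * ψ) = ∫ h(z) D_δ(z) dz = d_δ ∫ h` (Fubini, `ψ` even). (3) As `δ → 0`,
`h * ψ_δ → h` uniformly with supports in a fixed compact set, so `Λ (h * ψ_δ) → Λ h`. With one `h₀`,
`∫ h₀ ≠ 0`: `d_δ → d := Λ h₀ / ∫ h₀`; so `Λ h = d ∫ h` for all `h`. -/
def DG1Stmt : Prop := ∀ (n : ℕ) (K : ℝ) (f : E n → E n) (F : E n → Mt n), 1 ≤ n → Glo K f F →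
  ∃ d : ℝ, ∀ h : E n → ℝ, Continuous h → HasCompactSupport h → tsupport h ⊆ ball 0 1 →
    ∫ y in ball 0 1, h (f y) * (F y).det = d * ∫ z, h z

/-- DG2 (uses OSC, CHR, LEB, PCR, ADJ). `d = 1`. (1) `F` is not `0` a.e. (else by OSC (`W = 0`) all
components of `f` are constant on the boundary of some cube, against injectivity); as
`‖F‖^n ≤ K det F` a.e., there is a point `y₀` of the ball as in LEB with `L = F y₀`, `det L > 0`. Let
`ℓ > 0`, `ℓ |v| ≤ |L v|`. (2) For small `r` the functions `w_i y = (f (y₀ + r y))_i / r - (L y)_i` are `ApS` on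
`cube 0 1` (CHR, scaling) with `∫ |W_i|^n ≤ r^(-n) ∫_{cube y₀ r} ‖F - L‖^n → 0`. OSC with `a = 1/2`: some
`t ∈ [1/2, 1]` and `b ∈ ℝ^n` (depending on `r`) with `|f (y₀ + r y)/r - L y - b| ≤ ω_r → 0` on `bcube 0 t`;
PCR: `∫_{cube 0 t} |f (y₀ + r y)/r - L y - b| → 0`. (3) Let `h ≥ 0` be a Lipschitz function with `∫ h = 1`
supported in `|z| ≤ ℓ/8`, `h_r z = h (z/r - b)`. `r^(-n) ∫_{y₀ + r cube 0 t} h_r(f) det F =
∫_{cube 0 t} h (f (y₀ + r y)/r - b) det F(y₀ + r y) dy` differs from `∫_{cube 0 t} h (L y) det L dy = 1`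
by at most `C ∫ |det F (y₀ + r y) - det L| + |det L| Lip(h) ∫ |f (y₀ + r y)/r - b - L y| → 0`. (4) For small
`r` the support `B` of `h_r`, a ball, is disjoint from `f (y₀ + r bcube 0 t)` (there
`|f/r - b| ≥ ℓ/2 - ω_r`), so it is contained in `f (y₀ + r int cube)` or disjoint from
`f (y₀ + r cube)` (connectedness; `f` is a homeomorphism); the second is impossible as the integral in
(3) is not `0`. So `B ⊆ ball 0 1` and `∫_{ball} h_r(f) det F = ∫_{y₀ + r cube 0 t} h_r(f) det F`, i.e.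
`d = d r^(-n) ∫ h_r → 1`. -/
def DG2Stmt : Prop := ∀ (n : ℕ) (K d : ℝ) (f : E n → E n) (F : E n → Mt n), 2 ≤ n → 0 ≤ K → Glo K f F →
  (∀ h : E n → ℝ, Continuous h → HasCompactSupport h → tsupport h ⊆ ball 0 1 →
    ∫ y in ball 0 1, h (f y) * (F y).det = d * ∫ z, h z) → d = 1

/-- VOL. The measures `map f (det F dy)` and `dz` on the ball are locally finite (`f⁻¹` of a compact
subset of the ball is compact) and have the same integrals of continuous functions with compact support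
in the ball, so the same measure of compact sets (approximate `1_C` from above by such functions),
hence of all Borel subsets of the ball (exhaust by the closed balls of radius `1 - 1/k`, finite
measures, π-λ). `det F ≥ 0` a.e. by `qc`. -/
def VOLStmt : Prop := ∀ (n : ℕ) (K : ℝ) (f : E n → E n) (F : E n → Mt n), 1 ≤ n → Glo K f F →
  (∀ h : E n → ℝ, Continuous h → HasCompactSupport h → tsupport h ⊆ ball 0 1 →
    ∫ y in ball 0 1, h (f y) * (F y).det = ∫ z, h z) →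
  ∀ g : E n → ℝ≥0∞, Measurable g →
    ∫⁻ x in ball 0 1, g (f x) * ENNReal.ofReal (F x).det = ∫⁻ z in ball 0 1, g z

/-- LCG (localisation). `g y = f (x + ρ A y)`, `G y = ρ F (x + ρ A y) ∘ A`. `Sob`: compose the
approximations with the affine map and change variables. `vol`: apply the formula of `f` to
`g 1_{f(U)}`, `U = x + ρ A (ball 0 R)` open, and the linear change of variables
(`det (ρ F ∘ A) = ρ^n det F det A`). -/
def LCGStmt : Prop := ∀ (n : ℕ) (K K' R ρ : ℝ) (f : E n → E n) (F : E n → Mt n) (x : E n) (A : Mt n),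
  1 ≤ n → Glo K f F →
  (∀ g : E n → ℝ≥0∞, Measurable g →
    ∫⁻ x in ball 0 1, g (f x) * ENNReal.ofReal (F x).det = ∫⁻ z in ball 0 1, g z) →
  0 < R → 0 < ρ → 0 < A.det → (∀ y ∈ ball (0 : E n) R, x + ρ • A y ∈ ball (0 : E n) 1) →
  (∀ᵐ y, y ∈ ball (0 : E n) R → ‖(F (x + ρ • A y)).comp A‖ ^ n ≤
    K' * ((F (x + ρ • A y)).comp A).det) →
  Loc R K' (fun y => f (x + ρ • A y)) (fun y => ρ • (F (x + ρ • A y)).comp A)

/-! ## E. Distortion -/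

/-- MNO. `f (interior of the cube)` is open. At a maximum of `|f - f c|` over the compact cube which is
not on the boundary of the cube a nearby value has larger norm; at a minimum (`f ≠ f c` on the cube)
a nearby value has smaller norm. -/
def MNOStmt : Prop := ∀ (n : ℕ) (R K t : ℝ) (f : E n → E n) (F : E n → Mt n) (c p : E n), 1 ≤ n →
  Loc R K f F → c ∈ ball 0 R → 0 < t → cube p t ⊆ ball 0 R → c ∉ cube p t → ∀ y ∈ cube p t,
  ∃ y₁ ∈ bcube p t, ∃ y₂ ∈ bcube p t, ‖f y₁ - f c‖ ≤ ‖f y - f c‖ ∧ ‖f y - f c‖ ≤ ‖f y₂ - f c‖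

/-- ENE (uses nothing but `vol`). `‖F‖^n ≤ K det F` and `vol` with `g z = |z - f c|^-n 1_{a ≤ |z - f c| ≤ b}`:
the integral is at most `K ∫_{a ≤ |z| ≤ b} |z|^-n dz ≤ K C (1 + log (b/a))` (dyadic shells, or
`integral_fun_norm_addHaar`). -/
def ENEStmt : Prop := ∀ n : ℕ, 1 ≤ n → ∃ C : ℝ, 0 < C ∧ ∀ (R K a b : ℝ) (f : E n → E n)
  (F : E n → Mt n) (c : E n) (S : Set (E n)), 0 ≤ K → Loc R K f F → c ∈ ball 0 R → IsCompact S →
  S ⊆ ball 0 R → 0 < a → a ≤ b → (∀ y ∈ S, a ≤ ‖f y - f c‖ ∧ ‖f y - f c‖ ≤ b) →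
  IntegrableOn (fun y => (‖F y‖ / ‖f y - f c‖) ^ n) S ∧
  ∫ y in S, (‖F y‖ / ‖f y - f c‖) ^ n ≤ C * K * (1 + Real.log (b / a))

/-- PA1 (inner path). `l = min |f - f c|` over the sphere `|y - c| = s`. The open ball of radius `l` around
`f c` is connected, contains `f c` and is disjoint from `f (sphere)`, so it is contained in
`f (ball c s)`. `γ τ = f⁻¹ (f c + τ (f p - f c))`; `f⁻¹` is continuous (`op`) (at `τ = 1`: `f` is a
homeomorphism of `closedBall c s` onto its image, which contains the closed ball of radius `l`). -/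
def PA1Stmt : Prop := ∀ (n : ℕ) (R K s : ℝ) (f : E n → E n) (F : E n → Mt n) (c p : E n), 1 ≤ n →
  Loc R K f F → 0 < s → closedBall c s ⊆ ball 0 R → ‖p - c‖ = s →
  (∀ y, ‖y - c‖ = s → ‖f p - f c‖ ≤ ‖f y - f c‖) →
  ∃ γ : ℝ → E n, ContinuousOn γ (Icc 0 1) ∧ γ 0 = c ∧ γ 1 = p ∧
    ∀ τ ∈ Icc (0 : ℝ) 1, γ τ ∈ closedBall c s ∧ ‖f (γ τ) - f c‖ ≤ ‖f p - f c‖

/-- PA2 (outer path). `f (closedBall c s')` is compact, hence bounded. Let `τ* > 1` be the first `τ ≥ 1`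
with `f c + τ (f q - f c) ∉ f (ball c s')` (an open set containing `f q`); the point with `τ*` is in
`f (closedBall c s')`, hence in the image of the sphere. `γ` = preimage of the segment. -/
def PA2Stmt : Prop := ∀ (n : ℕ) (R K s' : ℝ) (f : E n → E n) (F : E n → Mt n) (c q : E n), 1 ≤ n →
  Loc R K f F → 0 < s' → closedBall c s' ⊆ ball 0 R → q ≠ c → ‖q - c‖ < s' →
  ∃ γ : ℝ → E n, ContinuousOn γ (Icc 0 1) ∧ γ 0 = q ∧ ‖γ 1 - c‖ = s' ∧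
    ∀ τ ∈ Icc (0 : ℝ) 1, γ τ ∈ closedBall c s' ∧ ‖f q - f c‖ ≤ ‖f (γ τ) - f c‖

/-- QSY (uses OSC, CHR, ENE, THT, PA1, PA2, INT, GEO). Let `p`, `q` be points of the sphere `|y - c| = s`
where `|f - f c|` is minimal, maximal, with values `l < L`, `Λ = log (L/l) ≥ 1`. `u = Θ(f - f c)`
(THT) is `ApS` on compact subsets of the ball (CHR), `|∇u| ≤ (C/Λ) ‖F‖/|f - f c|` and `= 0` unless
`l ≤ |f - f c| ≤ L`; by ENE (applied to `S = {y ∈ closedBall c (19 n s) : l ≤ |f y - f c| ≤ L}`)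
`𝓔 = ∫ |∇u|^n ≤ C' Λ^(1-n)`; put `ω = (C 𝓔)^(1/n)`. (1) OSC at `c`, `a = s`: `t₀ ∈ [s, 2s]`; the path
PA2 from `q` to `|y - c| = 3 n s` meets `bcube c t₀` (`|q - c|_∞ ≤ s ≤ t₀`, `3 n s/√n ≥ 2 s`), where
`u = 1`; so `u ≥ 1 - ω` on `bcube c t₀`. (2) OSC at `p`, `h = s/(16 n)`: `t₁ ∈ [h, 2h]`; the path PA1
from `p` to `c` meets `bcube p t₁`, where `u = 0`: `u ≤ ω` on `bcube p t₁`. (3) Let
`z₀ = c + t₀ e₁ ∈ bcube c t₀`. OSC at `z₀` and at all points of the GEO chain from `p` to `z₀`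
(`a = s`, `b = 2 s`, steps in `[h, 2h]`, radii in `[h, 2h]`): consecutive boundaries meet (INT), the
last one meets `bcube c t₀` (INT with `δ = t₀`). So `1 - ω ≤ ω + (N + 2) ω`, `ω ≥ 1/(N + 4)`, so `Λ ≤ C''`.
Everything happens in `closedBall c (19 n s)`. -/
def QSYStmt : Prop := ∀ n : ℕ, 2 ≤ n → ∃ H : ℝ, 1 ≤ H ∧ ∀ (R s : ℝ) (f : E n → E n)
  (F : E n → Mt n) (c : E n), Loc R 2 f F → 0 < s → closedBall c (20 * n * s) ⊆ ball 0 R →
  ∀ y y', ‖y - c‖ = s → ‖y' - c‖ = s → ‖f y - f c‖ ≤ H * ‖f y' - f c‖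

/-- QSD (uses QSY). If `|y - c| ≤ 2 |y' - c|`: `|f y - f c| ≤ H' |f y' - f c|`. Let `s = |y' - c|`. If
`|y - c| ≤ s` then with the point `y''` of the sphere `|· - c| = s`: `|f y - f c|` is at most the maximum
of `|f - f c|` over this sphere (open map, maximum principle) `≤ H |f y' - f c|`. If
`s < |y - c| ≤ 2 s` let `m = (y + c)/2`, `|m - c| = |m - y| ≤ s`: `|f y - f m| ≤ H |f c - f m|`, so
`|f y - f c| ≤ (H + 1) |f m - f c|`, reduce to the first case. Iterate twice for the factor `4`. -/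
def QSDStmt : Prop := ∀ n : ℕ, 2 ≤ n → ∃ H : ℝ, 1 ≤ H ∧ ∀ (R s : ℝ) (f : E n → E n)
  (F : E n → Mt n) (c : E n), Loc R 2 f F → 0 < s → closedBall c (100 * n * s) ⊆ ball 0 R →
  ∀ y ∈ ann c s (4 * s), ∀ y' ∈ ann c s (4 * s), ‖f y - f c‖ ≤ H * ‖f y' - f c‖

/-- ENW (uses QSD, ENE). On the annulus `|f - f c|` is between `μ` and `H μ`. -/
def ENWStmt : Prop := ∀ n : ℕ, 2 ≤ n → ∃ C : ℝ, 0 < C ∧ ∀ (R s : ℝ) (f : E n → E n)
  (F : E n → Mt n) (c : E n), Loc R 2 f F → 0 < s → closedBall c (100 * n * s) ⊆ ball 0 R →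
  IntegrableOn (fun y => (‖F y‖ / ‖f y - f c‖) ^ n) (ann c s (4 * s)) ∧
  ∫ y in ann c s (4 * s), (‖F y‖ / ‖f y - f c‖) ^ n ≤ C

/-! ## F. The energy estimate -/

/-- FLX (uses NLG, IBP, SMO; equal flux). Let `r` be such that `χ = χ c` on `ball c r`, and `μ ≤ r` such that
`y ∉ ball c r` implies `|f y - f c| ≥ μ` and the ball of radius `μ` around `f c` is in `f (ball 0 R)`
(`f` is open and injective). NLG with `G z = gs μ (z - f c)`, `Φ (y, z) = χ y`, and IBP with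
`A y = gs μ (y - c)`: on the support of `∇χ` these fields are those of `Gf`, and
`∫ χ dv G (f) det F = χ(c) ∫ dv (gs μ)(f - f c) det F = χ(c) ∫_{f(ball)} dv (gs μ)(z - f c) dz =
χ(c) ∫ dv (gs μ)` (`vol` for positive and negative parts; `dv (gs μ) z = 0` for `|z| ≥ μ`) and
`∫ χ dv A = χ(c) ∫ dv (gs μ)`. -/
def FLXStmt : Prop := ∀ (n : ℕ) (R K r : ℝ) (f : E n → E n) (F : E n → Mt n) (c : E n)
  (χ : E n → ℝ), 1 ≤ n → Loc R K f F → c ∈ ball 0 R → 0 < r → ContDiff ℝ (⊤ : ℕ∞) χ →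
  HasCompactSupport χ → tsupport χ ⊆ ball 0 R → (∀ y ∈ ball c r, χ y = χ c) →
  IntegrableOn (fun y => inner ℝ (Gf f F c y) (gr (fderiv ℝ χ y))) (ball 0 R) ∧
  ∫ y in ball 0 R, inner ℝ (Gf f F c y) (gr (fderiv ℝ χ y)) = 0

/-- IDW (uses NLG, IBP, SMO). On the compact set `tsupport χ` (not containing `c`) `|f - f c| ≥ μ > 0`,
`|y - c| ≥ μ`. Take `Φ (y, z) = χ y (lg μ (z - f c) - lg μ (y - c))`, `G z = gs μ (z - f c)`,
`A y = gs μ (y - c)`: `dv G (f) = 0`, `dv A = 0` on the support, `grc Φ f F = wf ∇χ + χ Wf`; subtract. -/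
def IDWStmt : Prop := ∀ (n : ℕ) (R K : ℝ) (f : E n → E n) (F : E n → Mt n) (c : E n)
  (χ : E n → ℝ), 1 ≤ n → Loc R K f F → c ∈ ball 0 R → ContDiff ℝ (⊤ : ℕ∞) χ →
  HasCompactSupport χ → tsupport χ ⊆ ball 0 R → c ∉ tsupport χ →
  IntegrableOn (fun y => χ y * inner ℝ (Gf f F c y) (Wf f F c y)) (ball 0 R) ∧
  ∫ y in ball 0 R, χ y * inner ℝ (Gf f F c y) (Wf f F c y) =
    - ∫ y in ball 0 R, wf f c y * inner ℝ (Gf f F c y) (gr (fderiv ℝ χ y))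

/-- ES1 (uses FLX, IDW, ALG, ADJ, ENW, CUT). `χ = χ₂ - χ₁` with the cut-offs of CUT at `s₂`, `s₁`
(`χ₂ = 1` on `closedBall c s₂`, supported in `closedBall c (3 s₂/2)`, ...), so `0 ≤ χ ≤ 1`, `χ = 1` on
`ann c (2 s₁) s₂`, `χ = 0` near `c`. By IDW and FLX (for `χ₂`, `χ₁`, which are constant near `c`), with
fixed points `y₂`, `y₁` of the two boundary annuli:
`∫ χ ⟪Gf, Wf⟫ = - ∫ (wf - wf y₂) ⟪Gf, ∇χ₂⟫ + ∫ (wf - wf y₁) ⟪Gf, ∇χ₁⟫`, at most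
`o₂ (C/s₂) ∫_{ann c s₂ (2 s₂)} |Gf| + o₁ (C/s₁) ∫_{ann c s₁ (2 s₁)} |Gf| ≤ C' (o₁ + o₂)`:
`|Gf| ≤ C ((‖F‖/|f - f c|)^(n-1) + |y - c|^(1-n))`, Hölder (or `t^(n-1)/s ≤ t^n + s^-n`), ENW, and
`∫_{ann c s (2s)} s^-n ≤ C`. By ALG (`z = f y - f c`, `ζ = |y - c|^-2 (y - c)`,
`|ζ|^(n-2) ζ = |y - c|^-n (y - c)`): `c₀ |Wf|^n ≤ ⟪Gf, Wf⟫ + η' ((‖F‖/|f - f c|)^n + |y - c|^-n)` a.e., and
the integral of the last bracket over `ann c s₁ (2 s₂)` is at most `C (1 + log (s₂/s₁))` (annuli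
`ann c s (4 s)`). -/
def ES1Stmt : Prop := ∀ n : ℕ, 2 ≤ n → ∃ C : ℝ, 0 < C ∧ ∀ η : ℝ, 0 < η → ∃ ε : ℝ, 0 < ε ∧ ε ≤ 1 ∧
  ∀ (R s₁ s₂ o₁ o₂ : ℝ) (f : E n → E n) (F : E n → Mt n) (c : E n), Loc R (1 + ε) f F →
  0 < s₁ → 4 * s₁ ≤ s₂ → closedBall c (400 * n * s₂) ⊆ ball 0 R →
  (∀ y ∈ ann c s₁ (2 * s₁), ∀ y' ∈ ann c s₁ (2 * s₁), |wf f c y - wf f c y'| ≤ o₁) →
  (∀ y ∈ ann c s₂ (2 * s₂), ∀ y' ∈ ann c s₂ (2 * s₂), |wf f c y - wf f c y'| ≤ o₂) →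
  IntegrableOn (fun y => ‖Wf f F c y‖ ^ n) (ann c (2 * s₁) s₂) ∧
  ∫ y in ann c (2 * s₁) s₂, ‖Wf f F c y‖ ^ n ≤ C * (o₁ + o₂) + η * (1 + Real.log (s₂ / s₁))

/-- OSW (uses OSC, CHR, SMO, INT, GEO, MNO). By scaling all constants depend on `n`, `λ`, `η` only. Let
`h = τ a`, `8 √n h ≤ a`. For `p ∈ ann c (3a/4) (5b/4)` the cube `cube p (2h)` is in `ann c (a/2) (2b)`,
where `wf f c = lg μ (f - f c) - lg μ (y - c)` (for small `μ`) is `ApS` with gradient `Wf` (CHR). OSC: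
`t_p ∈ [h, 2h]` with oscillation at most `ω = (C δ)^(1/n)` on `bcube p t_p`. MNO and
`|log |y - c| - log |y' - c|| ≤ 8 √n τ` on the cube give `|wf p - wf x| ≤ ω + 16 √n τ` for `x ∈ bcube p t_p`.
Chain GEO from `y` to `y'`, consecutive boundaries meet (INT): `|wf y - wf y'| ≤ (N + 1) ω +
2 (ω + 16 √n τ) ≤ η` for `τ` small, then `δ` small. -/
def OSWStmt : Prop := ∀ (n : ℕ) (η l : ℝ), 2 ≤ n → 0 < η → 1 ≤ l → ∃ δ : ℝ, 0 < δ ∧
  ∀ (R K a b : ℝ) (f : E n → E n) (F : E n → Mt n) (c : E n), Loc R K f F → 0 < a → a ≤ b →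
  b ≤ l * a → closedBall c (4 * b) ⊆ ball 0 R →
  IntegrableOn (fun y => ‖Wf f F c y‖ ^ n) (ann c (a / 2) (2 * b)) →
  ∫ y in ann c (a / 2) (2 * b), ‖Wf f F c y‖ ^ n ≤ δ →
  ∀ y ∈ ann c a b, ∀ y' ∈ ann c a b, |wf f c y - wf f c y'| ≤ η

/-- CLW (uses ES1, OSW, QSD). Let `δ₁` be the `δ` of OSW for `η`, `l = 2/θ` (annulus `ann c θ 2`), `C` that of
ES1, `o = δ₁/(8 C)`, `δ₂` the `δ` of OSW for `o`, `l = 2`, and `O = log H + log 4` (QSD: a bound for the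
oscillation of `wf` on every `ann c s (2 s)`). Choose `N` with `(2 C O + 1)/N ≤ δ₂`, and `η'` with
`η' (1 + log (s₂/s₁)) ≤ min 1 (δ₁/4)` for all scales in the sequel. First ES1 with
`s₁ = θ 8^(-N-3)`, `s₂ = 8^(N+3)`: the energy of `Wf` in `ann c (2 s₁) s₂` is at most `2 C O + 1`. The annuli
`ann c (s/2) (4 s)`, `s = θ 8^(-j-2)`, `j = 1..N`, have measure zero overlaps and lie in it, so one of them
has energy at most `δ₂`: OSW: `wf` oscillates on `ann c s (2s)` by at most `o`. The same for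
`s' = 8^(j+1)`. Second ES1 with `s₁ = s`, `s₂ = s'`: the energy in `ann c (θ/2) 4` is at most
`2 C o + δ₁/4 ≤ δ₁`; OSW. `R` = large. -/
def CLWStmt : Prop := ∀ (n : ℕ) (θ η : ℝ), 2 ≤ n → 0 < θ → θ < 1 → 0 < η → ∃ ε R : ℝ, 0 < ε ∧ ε ≤ 1 ∧
  4 ≤ R ∧ ∀ (f : E n → E n) (F : E n → Mt n), Loc R (1 + ε) f F → ∀ c ∈ closedBall (0 : E n) 1,
  ∀ y ∈ ann c θ 2, ∀ y' ∈ ann c θ 2, |wf f c y - wf f c y'| ≤ η

/-! ## G. Conclusion -/

/-- NIS (metric geometry only). Write `d(y,z) = |f y - f z|/|y - z|`. For pairs of points of the closed ball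
at distance `≥ θ` all `d` agree up to the factor `exp (3 η)` (`d(c,y) ~ d(c,y')`, symmetric; two
points have a third one at distance `≥ θ` from both, `θ` small): `d = m exp(± 3 η)`. For
`|y - z| < θ` use a third point at distance `θ` from `y` (and `≤ 2 θ` from `z`, `≥ θ`... or `≥ θ/..`):
`|f y - f z| ≤ 4 θ m exp(3 η)`. So `||f y - f z| - m |y - z|| ≤ m δ`, `δ → 0` as `θ, η → 0`. Let
`g = (f - f 0)/m`: `|⟪g y, g z⟫ - ⟪y, z⟫| ≤ C δ` (polarisation). `L = m ∑ y_i g(e_i)`: the `g(e_i)` are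
almost orthonormal, `|⟪g y - ∑ y_j g(e_j), g(e_i)⟫| ≤ C δ`, so `|g y - ∑ y_j g(e_j)| ≤ C' δ`. -/
def NISStmt : Prop := ∀ (n : ℕ) (κ : ℝ), 1 ≤ n → 0 < κ → κ ≤ 1 / 3 → ∃ θ η : ℝ, 0 < θ ∧ θ < 1 ∧ 0 < η ∧
  ∀ f : E n → E n, InjOn f (closedBall 0 1) →
  (∀ c ∈ closedBall (0 : E n) 1, ∀ y ∈ closedBall (0 : E n) 1, ∀ y' ∈ closedBall (0 : E n) 1,
    θ ≤ ‖y - c‖ → θ ≤ ‖y' - c‖ → |wf f c y - wf f c y'| ≤ η) →
  ∃ (L : Mt n) (m : ℝ), 0 < m ∧ (∀ v, (1 - κ) * m * ‖v‖ ≤ ‖L v‖ ∧ ‖L v‖ ≤ (1 + κ) * m * ‖v‖) ∧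
    ∀ y ∈ closedBall (0 : E n) 1, ‖f y - f 0 - L y‖ ≤ κ * m

/-- SGN (uses NLD, ADJ). Let `φ` be a fixed cut-off, `0 ≤ φ ≤ 1`, `1` on `closedBall 0 (1/2)`, supported in
`closedBall 0 1 =: S`. `∫ ‖F‖^n ≤ 2 ∫_S det F = 2 volume (f S) ≤ C m^n` (`vol`, and `f S` is in a ball of radius
`3 m`). NLD (`a = f 0`, `δ = κ₀ m`): `|∫_S φ (det F - det L)| ≤ C κ₀ m ∫_S (‖F‖ + 2 m)^(n-1) ≤ C' κ₀ m^n`. If
`det L ≤ 0` then `|det L| ≥ (m/2)^n` (volume of `L (ball)`), `∫ φ det F ≥ 0`, so the left side is at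
least `(m/2)^n volume (ball 0 (1/2))`: contradiction for small `κ₀`. -/
def SGNStmt : Prop := ∀ n : ℕ, 2 ≤ n → ∃ κ₀ : ℝ, 0 < κ₀ ∧ κ₀ ≤ 1 / 3 ∧ ∀ (R m : ℝ) (f : E n → E n)
  (F : E n → Mt n) (L : Mt n), 4 ≤ R → Loc R 2 f F → 0 < m → (∀ v, m / 2 * ‖v‖ ≤ ‖L v‖) →
  ‖L‖ ≤ 2 * m → (∀ y ∈ closedBall (0 : E n) 1, ‖f y - f 0 - L y‖ ≤ κ₀ * m) → 0 < L.det

/-- STB (uses CLW, NIS, SGN). Stability in Liouville's theorem. `κ' = min κ κ₀ / 4`, NIS gives `θ`, `η`,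
CLW `ε`, `R`. `m' = (1 - κ') m`; `‖L‖ ≤ (1 + κ') m ≤ 2 m'`. -/
def STBStmt : Prop := ∀ (n : ℕ) (κ : ℝ), 2 ≤ n → 0 < κ → ∃ ε R : ℝ, 0 < ε ∧ ε ≤ 1 ∧ 4 ≤ R ∧
  ∀ (f : E n → E n) (F : E n → Mt n), Loc R (1 + ε) f F → ∃ (L : Mt n) (m : ℝ), LinDist 2 m L ∧
    ∀ y ∈ closedBall (0 : E n) 1, ‖f y - f 0 - L y‖ ≤ κ * m

/-- GLB (uses MOL, DG1, DG2, VOL). `g = exf f` is a homeomorphism of the open ball (`KeepsSphere`); `Sob` by
MOL; `qc`: cover the ball by countably many of the balls of `SmallOsc`; there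
`‖F‖^n ≤ ‖F A‖^n ‖A⁻¹‖^n ≤ 2 det F det A ≤ 2 H^n det F` (`‖A⁻¹‖ ≤ 1`, `det A ≤ ‖A‖^n`, `det A > 0`,
and `det F ≥ 0`). -/
def GLBStmt : Prop := ∀ (n : ℕ) (ε H : ℝ) (f : HB n) (F : E n → Mt n) (t : ℝ), 2 ≤ n → 0 < ε → ε ≤ 1 →
  KeepsSphere f → WDer f F → 0 < t → t ≤ 1 →
  (∀ x : E n, ‖x‖ < 1 → ∃ A : Mt n, LinDist H 1 A ∧
      ∀ᵐ y, y ∈ ball x (t * (1 - ‖x‖)) → ‖(F y).comp A‖ ^ n ≤ (1 + ε) * ((F y).comp A).det) →
  ∃ K : ℝ, Glo K (exf f) F ∧ ∀ g : E n → ℝ≥0∞, Measurable g →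
    ∫⁻ x in ball 0 1, g (exf f x) * ENNReal.ofReal (F x).det = ∫⁻ z in ball 0 1, g z

/-- NAF (uses STB, GLB, LCG). Given `κ`, `H ≥ 1` take `ε`, `R` of STB for `κ/H`. Let `f` be `SmallOsc ε H`, `e` small,
`e ≤ t/(H R)`, `|x| < 1`, `ρ = e (1 - |x|)`, `A` for `x`. LCG: `g y = f (x + ρ A y)` is `Loc R (1 + ε)`
(`|ρ A y| < ρ H R ≤ t (1 - |x|)`). STB: `|f (x + ρ A y) - f x - L y| ≤ (κ/H) m` for `|y| ≤ 1`. Every `u`,
`|u| ≤ ρ`, is `ρ A y` with `|y| ≤ 1` (`|A y| ≥ |y|`). `L' = ρ⁻¹ L A⁻¹`, `m' = m/(ρ H)`: `m' |v| ≤ |L' v|`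
(`|A⁻¹ v| ≥ |v|/H`), `‖L'‖ ≤ 2 m/ρ = 2 H m'`, error `(κ/H) m = κ m' ρ`. -/
def NAFStmt : Prop := ∀ (n : ℕ) (κ H : ℝ), 2 ≤ n → 0 < κ → ∃ ε : ℝ, 0 < ε ∧
  ∀ f : HB n, SmallOsc ε H f → NearAffine κ (2 * H) f

/-- FIN (uses NAF and the hand-in MonotoneAffineGroup). `κ` of `MonotoneAffineGroup.result`, `ε H` of NAF:
each generator is in `Gen n κ`. -/
def FINStmt : Prop := ∀ n : ℕ, 2 ≤ n → ∃ κ : ℝ, 0 < κ ∧ ∃ ε : ℝ → ℝ, (∀ H, 0 < ε H) ∧
  ∀ f ∈ Subgroup.closure (Gen n κ ∪ {f : HB n | ∃ H : ℝ, SmallOsc (ε H) H f}), ∃ K : ℝ, Approx K f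

end Pool.Agent.SKQ
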